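import Pool.Agent.Y154.Q440.LeafA
import Pool.Agent.Y440.K.Stm2

/-! LEAF: the meaning of the check of one word. -/

set_option autoImplicit false
set_option maxRecDepth 100000

open Pool.Agent.Y440.A (Odd4 cd fl cd7 L8f D8f t7f b10)

namespace Pool.Agent.Y154.Q440

open Pool.Agent.Y440 Pool.Agent.Y440.K

theorem mR_eq : mR = 2 ^ 4872 - 1 := by decide +kernel

theorem nr_eq (Y : ℕ) : nr Y = pkL 9744 [rq (f20 Y 0), rq (f20 Y 20), rq (f20 Y 40), rq (f20 Y 60),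
    rq (f20 Y 80), rq (f20 Y 100), rq (f20 Y 120)] := by
  have hs : ∀ x k : ℕ, Nat.shiftLeft x k = 2 ^ k * x := fun x k => by
    have : x <<< k = 2 ^ k * x := by rw [Nat.shiftLeft_eq, Nat.mul_comm]
    exact this
  unfold nr pkL
  simp only [B.st_eq, hs, Nat.add_eq, List.foldr_cons, List.foldr_nil, Nat.mul_zero, Nat.add_zero]

theorem NR_eq (n : ℕ) : NR n = pkL 9744 [rq (f20 (Y7 n) 0), rq (f20 (Y7 n) 20),
    rq (f20 (Y7 n) 40), rq (f20 (Y7 n) 60), rq (f20 (Y7 n) 80), rq (f20 (Y7 n) 100),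
    rq (f20 (Y7 n) 120)] := by
  unfold NR
  rw [B.st_eq, nr_eq]

theorem rq_eq (c f : ℕ) (hc : c < 1024) : rq (c + 1024 * f) = gR (qx c f) := by
  have h1 : Nat.mod (c + 1024 * f) 1024 = c := by
    show (c + 1024 * f) % 1024 = c
    omega
  have h2 : Nat.div (c + 1024 * f) 1024 = f := by
    show (c + 1024 * f) / 1024 = f
    omega
  unfold rq qx
  rw [B.st_eq, h1, h2]

theorem dt_eq (r i s j : ℕ) : dt r i s j =
    Nat.mod (Nat.shiftRight (Nat.mul (part i 4872 r) (part j 4872 s)) 4816) 72057594037927936 := by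
  unfold dt
  rw [land_shift r i mR 4872 mR_eq, land_shift s j mR 4872 mR_eq]

/-- all records of the structure are small -/
def Gd (n : ℕ) : Prop := ∀ x ∈ [rq (f20 (Y7 n) 0), rq (f20 (Y7 n) 20),
    rq (f20 (Y7 n) 40), rq (f20 (Y7 n) 60), rq (f20 (Y7 n) 80), rq (f20 (Y7 n) 100),
    rq (f20 (Y7 n) 120)], x < 2 ^ 9744

theorem part_NR (n k d : ℕ) (hd : d + 4872 ≤ 9744) (hn : Gd n) (hk : k < 7) :
    part (9744 * k + d) 4872 (NR n) = part d 4872 (rq (f20 (Y7 n) (20 * k))) := by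
  rw [NR_eq, part_pk 9744 4872 d hd _ hn k hk]
  congr 1
  rcases k with _ | _ | _ | _ | _ | _ | _ | k
  · rfl
  · rfl
  · rfl
  · rfl
  · rfl
  · rfl
  · rfl
  · omega

section
variable {V : Type} (E : V → V → V → V → ℕ)

theorem b10_lt (b0 b1 b2 b3 b4 b5 b6 b7 b8 b9 : ℕ) (h0 : b0 = 0 ∨ b0 = 1) (h1 : b1 = 0 ∨ b1 = 1)
    (h2 : b2 = 0 ∨ b2 = 1) (h3 : b3 = 0 ∨ b3 = 1) (h4 : b4 = 0 ∨ b4 = 1) (h5 : b5 = 0 ∨ b5 = 1)
    (h6 : b6 = 0 ∨ b6 = 1) (h7 : b7 = 0 ∨ b7 = 1) (h8 : b8 = 0 ∨ b8 = 1) (h9 : b9 = 0 ∨ b9 = 1) :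
    b10 b0 b1 b2 b3 b4 b5 b6 b7 b8 b9 < 1024 := by
  unfold b10
  omega

theorem cd_lt (hE : Odd4 E) (a b c d e f : V) : cd E a b c d e f < 1024 :=
  b10_lt _ _ _ _ _ _ _ _ _ _ (hE.bt _ _ _ _) (hE.bt _ _ _ _) (hE.bt _ _ _ _) (hE.bt _ _ _ _)
    (hE.bt _ _ _ _) (hE.bt _ _ _ _) (hE.bt _ _ _ _) (hE.bt _ _ _ _) (hE.bt _ _ _ _)
    (hE.bt _ _ _ _)

theorem fl_lt (hE : Odd4 E) (a b c d e f u : V) : fl E a b c d e f u < 1024 :=
  b10_lt _ _ _ _ _ _ _ _ _ _ (hE.bt _ _ _ _) (hE.bt _ _ _ _) (hE.bt _ _ _ _) (hE.bt _ _ _ _)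
    (hE.bt _ _ _ _) (hE.bt _ _ _ _) (hE.bt _ _ _ _) (hE.bt _ _ _ _) (hE.bt _ _ _ _)
    (hE.bt _ _ _ _)

theorem rq_c7 (hE : Odd4 E) (a b c d e f u : V) : rq (B.c7 E a b c d e f u) =
    gR (qx (cd E a b c d e f) (fl E a b c d e f u)) := by
  unfold B.c7
  exact rq_eq _ _ (cd_lt E hE _ _ _ _ _ _)

theorem rq_c7_lt (hv : S_val) (hi : S_idx) (hE : Odd4 E) (a b c d e f u : V) :
    rq (B.c7 E a b c d e f u) < 2 ^ 9744 := by
  rw [rq_c7 E hE]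
  apply hv.2.2
  rcases hi _ (cd_lt E hE a b c d e f) with h | ⟨t, ht, h⟩
  · rw [h _ (fl_lt E hE a b c d e f u)]
    norm_num
  · have := (h _ (fl_lt E hE a b c d e f u)).2
    omega

theorem gd_c7 (hv : S_val) (hi : S_idx) (h7 : S_y7) (hE : Odd4 E) (a b c d e f g : V) :
    Gd (B.c7 E a b c d e f g) := by
  obtain ⟨h0, h1, h2, h3, h4, h5, h6⟩ := h7 V E hE a b c d e f g
  intro x hx
  rw [h0, h1, h2, h3, h4, h5, h6] at hx
  simp only [List.mem_cons, List.not_mem_nil, or_false] at hx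
  rcases hx with rfl | rfl | rfl | rfl | rfl | rfl | rfl <;>
    exact rq_c7_lt E hv hi hE _ _ _ _ _ _ _

/-- the value for one pair -/
theorem pair (hE : Odd4 E) (a b c d e f u v : V) (n n' k k' i j : ℕ) (hn : Gd n) (hn' : Gd n')
    (hk : k < 7) (hk' : k' < 7) (hi : i = 9744 * k + 0) (hj : j = 9744 * k' + 4872)
    (h1 : f20 (Y7 n) (20 * k) = B.c7 E a b c d e f u)
    (h2 : f20 (Y7 n') (20 * k') = B.c7 E a b c d e f v) :
    (dt (NR n) i (NR n') j : ℤ) = kap E a b c d e f u v + cof := by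
  have e1 : dt (NR n) i (NR n') j = dt (rq (B.c7 E a b c d e f u)) 0 (rq (B.c7 E a b c d e f v)) 4872 := by
    rw [dt_eq, dt_eq, hi, hj, part_NR n k 0 (by norm_num) hn hk,
      part_NR n' k' 4872 (by norm_num) hn' hk', h1, h2]
  rw [e1, rq_c7 E hE, rq_c7 E hE]
  unfold kap K0 dd
  ring

end

theorem t (hv : S_val) (hi : S_idx) (hf : B.S_fields) (h7 : S_y7) : S_leaf := by
  intro V E hE x hl
  obtain ⟨hf1, hf2⟩ := hf V E hE x
  have hD := hf1 0 (by norm_num)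
  have g0 := hf2 0 (by norm_num)
  have g1 := hf2 1 (by norm_num)
  have g2 := hf2 2 (by norm_num)
  have g3 := hf2 3 (by norm_num)
  have g4 := hf2 4 (by norm_num)
  have g5 := hf2 5 (by norm_num)
  have g6 := hf2 6 (by norm_num)
  have g7 := hf2 7 (by norm_num)
  simp only [B.lns, B.fds, List.getD_cons_zero, List.getD_cons_succ] at hD g0 g1 g2 g3 g4 g5 g6 g7
  have hs : ∀ X k : ℕ, f20 X k = X / 2 ^ k % 1048576 := fun X k => by
    have : (X >>> k) % 1048576 = X / 2 ^ k % 1048576 := by rw [Nat.shiftRight_eq_div_pow]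
    exact this
  have n0 : f20 (B.wd E x) 72 = B.c7 E (x 1) (x 2) (x 3) (x 4) (x 5) (x 6) (x 7) := by rw [hs]; exact g0
  have n1 : f20 (B.wd E x) 92 = B.c7 E (x 0) (x 2) (x 3) (x 4) (x 5) (x 6) (x 7) := by rw [hs]; exact g1
  have n2 : f20 (B.wd E x) 112 = B.c7 E (x 0) (x 1) (x 3) (x 4) (x 5) (x 6) (x 7) := by rw [hs]; exact g2
  have n3 : f20 (B.wd E x) 132 = B.c7 E (x 0) (x 1) (x 2) (x 4) (x 5) (x 6) (x 7) := by rw [hs]; exact g3
  have n4 : f20 (B.wd E x) 152 = B.c7 E (x 0) (x 1) (x 2) (x 3) (x 5) (x 6) (x 7) := by rw [hs]; exact g4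
  have n5 : f20 (B.wd E x) 172 = B.c7 E (x 0) (x 1) (x 2) (x 3) (x 4) (x 6) (x 7) := by rw [hs]; exact g5
  have n6 : f20 (B.wd E x) 192 = B.c7 E (x 0) (x 1) (x 2) (x 3) (x 4) (x 5) (x 7) := by rw [hs]; exact g6
  have n7 : f20 (B.wd E x) 212 = B.c7 E (x 0) (x 1) (x 2) (x 3) (x 4) (x 5) (x 6) := by rw [hs]; exact g7
  unfold leafK at hl
  rw [B.st_eq, n7] at hl
  simp only [B.st_eq, l7, l6, l5, l4, l3, l2, l1, n6, n5, n4, n3, n2, n1, n0] at hl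
  unfold l0 at hl
  have hl2 := Nat.le_of_ble_eq_true hl
  obtain ⟨y00, y01, y02, y03, y04, y05, y06⟩ := h7 V E hE (x 1) (x 2) (x 3) (x 4) (x 5) (x 6) (x 7)
  have d0 := gd_c7 E hv hi h7 hE (x 1) (x 2) (x 3) (x 4) (x 5) (x 6) (x 7)
  obtain ⟨y10, y11, y12, y13, y14, y15, y16⟩ := h7 V E hE (x 0) (x 2) (x 3) (x 4) (x 5) (x 6) (x 7)
  have d1 := gd_c7 E hv hi h7 hE (x 0) (x 2) (x 3) (x 4) (x 5) (x 6) (x 7)
  obtain ⟨y20, y21, y22, y23, y24, y25, y26⟩ := h7 V E hE (x 0) (x 1) (x 3) (x 4) (x 5) (x 6) (x 7)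
  have d2 := gd_c7 E hv hi h7 hE (x 0) (x 1) (x 3) (x 4) (x 5) (x 6) (x 7)
  obtain ⟨y30, y31, y32, y33, y34, y35, y36⟩ := h7 V E hE (x 0) (x 1) (x 2) (x 4) (x 5) (x 6) (x 7)
  have d3 := gd_c7 E hv hi h7 hE (x 0) (x 1) (x 2) (x 4) (x 5) (x 6) (x 7)
  obtain ⟨y40, y41, y42, y43, y44, y45, y46⟩ := h7 V E hE (x 0) (x 1) (x 2) (x 3) (x 5) (x 6) (x 7)
  have d4 := gd_c7 E hv hi h7 hE (x 0) (x 1) (x 2) (x 3) (x 5) (x 6) (x 7)
  obtain ⟨y50, y51, y52, y53, y54, y55, y56⟩ := h7 V E hE (x 0) (x 1) (x 2) (x 3) (x 4) (x 6) (x 7)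
  have d5 := gd_c7 E hv hi h7 hE (x 0) (x 1) (x 2) (x 3) (x 4) (x 6) (x 7)
  obtain ⟨y60, y61, y62, y63, y64, y65, y66⟩ := h7 V E hE (x 0) (x 1) (x 2) (x 3) (x 4) (x 5) (x 7)
  have d6 := gd_c7 E hv hi h7 hE (x 0) (x 1) (x 2) (x 3) (x 4) (x 5) (x 7)
  obtain ⟨y70, y71, y72, y73, y74, y75, y76⟩ := h7 V E hE (x 0) (x 1) (x 2) (x 3) (x 4) (x 5) (x 6)
  have d7 := gd_c7 E hv hi h7 hE (x 0) (x 1) (x 2) (x 3) (x 4) (x 5) (x 6)
  have p01 := pair E hE (x 2) (x 3) (x 4) (x 5) (x 6) (x 7) (x 0) (x 1) _ _ 0 0 0 4872 d1 d0 (by norm_num) (by norm_num)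
    (by norm_num) (by norm_num) y10 y00
  have p02 := pair E hE (x 1) (x 3) (x 4) (x 5) (x 6) (x 7) (x 0) (x 2) _ _ 0 1 0 14616 d2 d0 (by norm_num) (by norm_num)
    (by norm_num) (by norm_num) y20 y01
  have p03 := pair E hE (x 1) (x 2) (x 4) (x 5) (x 6) (x 7) (x 0) (x 3) _ _ 0 2 0 24360 d3 d0 (by norm_num) (by norm_num)
    (by norm_num) (by norm_num) y30 y02
  have p04 := pair E hE (x 1) (x 2) (x 3) (x 5) (x 6) (x 7) (x 0) (x 4) _ _ 0 3 0 34104 d4 d0 (by norm_num) (by norm_num)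
    (by norm_num) (by norm_num) y40 y03
  have p05 := pair E hE (x 1) (x 2) (x 3) (x 4) (x 6) (x 7) (x 0) (x 5) _ _ 0 4 0 43848 d5 d0 (by norm_num) (by norm_num)
    (by norm_num) (by norm_num) y50 y04
  have p06 := pair E hE (x 1) (x 2) (x 3) (x 4) (x 5) (x 7) (x 0) (x 6) _ _ 0 5 0 53592 d6 d0 (by norm_num) (by norm_num)
    (by norm_num) (by norm_num) y60 y05
  have p07 := pair E hE (x 1) (x 2) (x 3) (x 4) (x 5) (x 6) (x 0) (x 7) _ _ 0 6 0 63336 d7 d0 (by norm_num) (by norm_num)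
    (by norm_num) (by norm_num) y70 y06
  have p12 := pair E hE (x 0) (x 3) (x 4) (x 5) (x 6) (x 7) (x 1) (x 2) _ _ 1 1 9744 14616 d2 d1 (by norm_num) (by norm_num)
    (by norm_num) (by norm_num) y21 y11
  have p13 := pair E hE (x 0) (x 2) (x 4) (x 5) (x 6) (x 7) (x 1) (x 3) _ _ 1 2 9744 24360 d3 d1 (by norm_num) (by norm_num)
    (by norm_num) (by norm_num) y31 y12
  have p14 := pair E hE (x 0) (x 2) (x 3) (x 5) (x 6) (x 7) (x 1) (x 4) _ _ 1 3 9744 34104 d4 d1 (by norm_num) (by norm_num)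
    (by norm_num) (by norm_num) y41 y13
  have p15 := pair E hE (x 0) (x 2) (x 3) (x 4) (x 6) (x 7) (x 1) (x 5) _ _ 1 4 9744 43848 d5 d1 (by norm_num) (by norm_num)
    (by norm_num) (by norm_num) y51 y14
  have p16 := pair E hE (x 0) (x 2) (x 3) (x 4) (x 5) (x 7) (x 1) (x 6) _ _ 1 5 9744 53592 d6 d1 (by norm_num) (by norm_num)
    (by norm_num) (by norm_num) y61 y15
  have p17 := pair E hE (x 0) (x 2) (x 3) (x 4) (x 5) (x 6) (x 1) (x 7) _ _ 1 6 9744 63336 d7 d1 (by norm_num) (by norm_num)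
    (by norm_num) (by norm_num) y71 y16
  have p23 := pair E hE (x 0) (x 1) (x 4) (x 5) (x 6) (x 7) (x 2) (x 3) _ _ 2 2 19488 24360 d3 d2 (by norm_num) (by norm_num)
    (by norm_num) (by norm_num) y32 y22
  have p24 := pair E hE (x 0) (x 1) (x 3) (x 5) (x 6) (x 7) (x 2) (x 4) _ _ 2 3 19488 34104 d4 d2 (by norm_num) (by norm_num)
    (by norm_num) (by norm_num) y42 y23
  have p25 := pair E hE (x 0) (x 1) (x 3) (x 4) (x 6) (x 7) (x 2) (x 5) _ _ 2 4 19488 43848 d5 d2 (by norm_num) (by norm_num)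
    (by norm_num) (by norm_num) y52 y24
  have p26 := pair E hE (x 0) (x 1) (x 3) (x 4) (x 5) (x 7) (x 2) (x 6) _ _ 2 5 19488 53592 d6 d2 (by norm_num) (by norm_num)
    (by norm_num) (by norm_num) y62 y25
  have p27 := pair E hE (x 0) (x 1) (x 3) (x 4) (x 5) (x 6) (x 2) (x 7) _ _ 2 6 19488 63336 d7 d2 (by norm_num) (by norm_num)
    (by norm_num) (by norm_num) y72 y26
  have p34 := pair E hE (x 0) (x 1) (x 2) (x 5) (x 6) (x 7) (x 3) (x 4) _ _ 3 3 29232 34104 d4 d3 (by norm_num) (by norm_num)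
    (by norm_num) (by norm_num) y43 y33
  have p35 := pair E hE (x 0) (x 1) (x 2) (x 4) (x 6) (x 7) (x 3) (x 5) _ _ 3 4 29232 43848 d5 d3 (by norm_num) (by norm_num)
    (by norm_num) (by norm_num) y53 y34
  have p36 := pair E hE (x 0) (x 1) (x 2) (x 4) (x 5) (x 7) (x 3) (x 6) _ _ 3 5 29232 53592 d6 d3 (by norm_num) (by norm_num)
    (by norm_num) (by norm_num) y63 y35
  have p37 := pair E hE (x 0) (x 1) (x 2) (x 4) (x 5) (x 6) (x 3) (x 7) _ _ 3 6 29232 63336 d7 d3 (by norm_num) (by norm_num)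
    (by norm_num) (by norm_num) y73 y36
  have p45 := pair E hE (x 0) (x 1) (x 2) (x 3) (x 6) (x 7) (x 4) (x 5) _ _ 4 4 38976 43848 d5 d4 (by norm_num) (by norm_num)
    (by norm_num) (by norm_num) y54 y44
  have p46 := pair E hE (x 0) (x 1) (x 2) (x 3) (x 5) (x 7) (x 4) (x 6) _ _ 4 5 38976 53592 d6 d4 (by norm_num) (by norm_num)
    (by norm_num) (by norm_num) y64 y45
  have p47 := pair E hE (x 0) (x 1) (x 2) (x 3) (x 5) (x 6) (x 4) (x 7) _ _ 4 6 38976 63336 d7 d4 (by norm_num) (by norm_num)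
    (by norm_num) (by norm_num) y74 y46
  have p56 := pair E hE (x 0) (x 1) (x 2) (x 3) (x 4) (x 7) (x 5) (x 6) _ _ 5 5 48720 53592 d6 d5 (by norm_num) (by norm_num)
    (by norm_num) (by norm_num) y65 y55
  have p57 := pair E hE (x 0) (x 1) (x 2) (x 3) (x 4) (x 6) (x 5) (x 7) _ _ 5 6 48720 63336 d7 d5 (by norm_num) (by norm_num)
    (by norm_num) (by norm_num) y75 y56
  have p67 := pair E hE (x 0) (x 1) (x 2) (x 3) (x 4) (x 5) (x 6) (x 7) _ _ 6 6 58464 63336 d7 d6 (by norm_num) (by norm_num)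
    (by norm_num) (by norm_num) y76 y66
  have hX : Nat.mod (B.wd E x) 256 = D8f E x := by
    have : B.wd E x % 256 = D8f E x := by
      have h2 : B.wd E x / 2 ^ (8 * 0) = B.wd E x := by rw [Nat.mul_zero, pow_zero, Nat.div_one]
      rw [h2] at hD
      exact hD
    exact this
  rw [hX] at hl2
  unfold S8 at hl2
  have hl3 := Int.ofNat_le.2 hl2
  simp only [Nat.add_eq, Nat.mul_eq, Nat.cast_add, Nat.cast_mul, Nat.cast_ofNat] at hl3
  simp only [p01, p02, p03, p04, p05, p06, p07, p12, p13, p14, p15, p16, p17, p23, p24, p25, p26, p27, p34, p35, p36, p37, p45, p46, p47, p56, p57, p67] at hl3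
  unfold L8f Pool.Agent.Y440.A.L8
  have hc : cof = 1218101226441168 := rfl
  rw [hc] at hl3
  linarith

end Pool.Agent.Y154.Q440
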