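import Mathlib

/-! Digits of packed records. -/

set_option autoImplicit false

namespace Pool.Agent.Y154.Q440

/-- `b` bits of `x` from position `a` on -/
def part (a b x : ℕ) : ℕ := x / 2 ^ a % 2 ^ b

theorem part_hi (w a b v r : ℕ) (hv : v < 2 ^ w) : part (w + a) b (v + 2 ^ w * r) = part a b r := by
  unfold part
  rw [pow_add, ← Nat.div_div_eq_div_mul, Nat.add_mul_div_left _ _ (Nat.two_pow_pos w),
    Nat.div_eq_of_lt hv, zero_add]

theorem part_lo (w a b v r : ℕ) (h : a + b ≤ w) : part a b (v + 2 ^ w * r) = part a b v := by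
  unfold part
  obtain ⟨c, rfl⟩ := Nat.exists_eq_add_of_le h
  have e : v + 2 ^ (a + b + c) * r = v + 2 ^ a * (2 ^ b * (2 ^ c * r)) := by
    rw [pow_add, pow_add]; ring
  rw [e, Nat.add_mul_div_left _ _ (Nat.two_pow_pos a), Nat.add_mul_mod_self_left]

/-- number with the base `2 ^ w` digits given by a list -/
def pkL (w : ℕ) (l : List ℕ) : ℕ := l.foldr (fun v r => v + 2 ^ w * r) 0

theorem part_pk (w b d : ℕ) (hd : d + b ≤ w) : ∀ (l : List ℕ), (∀ v ∈ l, v < 2 ^ w) →
    ∀ k, k < l.length → part (w * k + d) b (pkL w l) = part d b (l.getD k 0) := by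
  intro l
  induction l with
  | nil => intro _ k hk; exact absurd hk (Nat.not_lt_zero _)
  | cons v l ih =>
    intro h k hk
    have e : pkL w (v :: l) = v + 2 ^ w * pkL w l := rfl
    rw [e]
    rcases k with _ | k
    · rw [Nat.mul_zero, Nat.zero_add, part_lo w d b _ _ hd]
      rfl
    · have e2 : w * (k + 1) + d = w + (w * k + d) := by ring
      rw [e2, part_hi w _ b _ _ (h v (List.mem_cons_self))]
      rw [ih (fun x hx => h x (List.mem_cons_of_mem _ hx)) k (by simpa using hk)]
      rfl

theorem land_shift (x i m b : ℕ) (hm : m = 2 ^ b - 1) :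
    Nat.land (Nat.shiftRight x i) m = part i b x := by
  have h1 : (x >>> i) &&& m = part i b x := by
    rw [hm, Nat.and_two_pow_sub_one_eq_mod, Nat.shiftRight_eq_div_pow]
    rfl
  exact h1

end Pool.Agent.Y154.Q440
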